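import Pool.Agent.Helper77.LD4.BadT
import Pool.Agent.Helper41.LD4.Defs

/-!
# Project LD4, block TM1: the number of the bad exponents in a window, both bases have a rational power

One relation between two bad exponents, raised to the power `r r'`, is exact between rational numbers; a combination of two
valuations that kills the power of `s` bounds the difference of the two exponents.
-/

set_option autoImplicit false

namespace Pool.Agent.Helper77.LD4

open Set Filter Topology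
open Pool.Agent.Helper23.LD3 (Close Bad)
open Pool.Agent.Helper41.LD4 (RatPow)

/-- multiplicative independence in terms of two valuations -/
private theorem exists_phi {a₁ a₂ b₁ b₂ : ℕ} (ha1 : 1 ≤ a₁) (ha2 : 1 ≤ a₂)
    (hirr : Irrational ((Real.log a₁ - Real.log a₂) / (Real.log b₁ - Real.log b₂))) :
    ∃ (φ : ℕ → ℤ) (c : ℕ), (∀ m n : ℕ, 1 ≤ m → 1 ≤ n → φ (m * n) = φ m + φ n) ∧ φ 1 = 0 ∧ φ b₁ = φ b₂ ∧ φ a₁ ≠ φ a₂ ∧
      ∀ n L : ℕ, 1 ≤ n → n ≤ 2 ^ L → |φ n| ≤ c * L := by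
  have hval : ∀ p n L : ℕ, 1 ≤ n → n ≤ 2 ^ L → n.factorization p ≤ L := by
    intro p n L hn hL
    by_cases hp : p.Prime
    · have h1 := Nat.ordProj_le p (by omega : n ≠ 0)
      have h2 : 2 ^ n.factorization p ≤ 2 ^ L := (Nat.pow_le_pow_left hp.two_le _).trans (h1.trans hL)
      exact (Nat.pow_le_pow_iff_right (by norm_num)).1 h2
    · rw [Nat.factorization_eq_zero_of_not_prime n hp]
      exact Nat.zero_le _
  set A : ℕ → ℤ := fun p => (a₁.factorization p : ℤ) - a₂.factorization p with hA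
  set B : ℕ → ℤ := fun p => (b₁.factorization p : ℤ) - b₂.factorization p with hB
  by_cases hex : ∃ p q, A p * B q ≠ A q * B p
  · obtain ⟨p, q, hpq⟩ := hex
    refine ⟨fun n => n.factorization p * B q - n.factorization q * B p, (B p).natAbs + (B q).natAbs, ?_, ?_, ?_, ?_, ?_⟩
    · intro m n hm hn
      simp only [Nat.factorization_mul (by omega : m ≠ 0) (by omega : n ≠ 0), Finsupp.add_apply]
      push_cast
      ring
    · simp
    · have h1 : (b₁.factorization p : ℤ) = B p + b₂.factorization p := by rw [hB]; ring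
      have h2 : (b₁.factorization q : ℤ) = B q + b₂.factorization q := by rw [hB]; ring
      simp only [h1, h2]
      ring
    · intro h
      apply hpq
      have h1 : (a₁.factorization p : ℤ) = A p + a₂.factorization p := by rw [hA]; ring
      have h2 : (a₁.factorization q : ℤ) = A q + a₂.factorization q := by rw [hA]; ring
      simp only [h1, h2] at h
      linarith
    · intro n L hn hL
      have h1 : (n.factorization p : ℤ) ≤ L := by exact_mod_cast hval p n L hn hL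
      have h2 : (n.factorization q : ℤ) ≤ L := by exact_mod_cast hval q n L hn hL
      have h3 : (0 : ℤ) ≤ n.factorization p := Int.natCast_nonneg _
      have h4 : (0 : ℤ) ≤ n.factorization q := Int.natCast_nonneg _
      refine (abs_sub _ _).trans ?_
      rw [abs_mul, abs_mul, abs_of_nonneg h3, abs_of_nonneg h4]
      push_cast
      have h5 := mul_le_mul_of_nonneg_right h1 (abs_nonneg (B q))
      have h6 := mul_le_mul_of_nonneg_right h2 (abs_nonneg (B p))
      linarith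
  · exfalso
    push Not at hex
    have hne : a₁ ≠ a₂ := by
      rintro rfl
      rw [sub_self, zero_div] at hirr
      exact hirr ⟨0, by simp⟩
    obtain ⟨p, hp⟩ : ∃ p, A p ≠ 0 := by
      by_contra hno
      push Not at hno
      apply hne
      apply Nat.eq_of_factorization_eq (by omega) (by omega)
      intro p
      have := hno p
      rw [hA] at this
      have h2 : (a₁.factorization p : ℤ) = a₂.factorization p := by linarith
      exact_mod_cast h2
    set S : Finset ℕ := (a₁.factorization.support ∪ a₂.factorization.support) ∪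
      (b₁.factorization.support ∪ b₂.factorization.support) with hS
    have hlog : ∀ n : ℕ, n.factorization.support ⊆ S → Real.log n = ∑ q ∈ S, (n.factorization q : ℝ) * Real.log q := by
      intro n hn
      rw [Real.log_nat_eq_sum_factorization]
      exact Finsupp.sum_of_support_subset _ hn _ (by simp)
    have l1 := hlog a₁ (by intro x hx; simp only [hS, Finset.mem_union]; exact Or.inl (Or.inl hx))
    have l2 := hlog a₂ (by intro x hx; simp only [hS, Finset.mem_union]; exact Or.inl (Or.inr hx))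
    have l3 := hlog b₁ (by intro x hx; simp only [hS, Finset.mem_union]; exact Or.inr (Or.inl hx))
    have l4 := hlog b₂ (by intro x hx; simp only [hS, Finset.mem_union]; exact Or.inr (Or.inr hx))
    have h1 : Real.log a₁ - Real.log a₂ = ∑ q ∈ S, (A q : ℝ) * Real.log q := by
      rw [l1, l2, ← Finset.sum_sub_distrib]
      refine Finset.sum_congr rfl fun q _ => ?_
      rw [hA]; push_cast; ring
    have h2 : Real.log b₁ - Real.log b₂ = ∑ q ∈ S, (B q : ℝ) * Real.log q := by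
      rw [l3, l4, ← Finset.sum_sub_distrib]
      refine Finset.sum_congr rfl fun q _ => ?_
      rw [hB]; push_cast; ring
    have h3 : (A p : ℝ) * (Real.log b₁ - Real.log b₂) = B p * (Real.log a₁ - Real.log a₂) := by
      rw [h1, h2, Finset.mul_sum, Finset.mul_sum]
      refine Finset.sum_congr rfl fun q _ => ?_
      have h4 := hex p q
      have h5 : (A p : ℝ) * B q = A q * B p := by exact_mod_cast h4
      linear_combination Real.log q * h5
    have hAp : (A p : ℝ) ≠ 0 := by exact_mod_cast hp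
    by_cases hb : Real.log b₁ - Real.log b₂ = 0
    · rw [hb, div_zero] at hirr
      exact hirr ⟨0, by simp⟩
    · have hBp : (B p : ℝ) ≠ 0 := by
        intro h0
        rw [h0, zero_mul] at h3
        exact (mul_ne_zero hAp hb) h3
      apply hirr
      refine ⟨(A p : ℚ) / B p, ?_⟩
      push_cast
      rw [div_eq_div_iff hBp hb]
      linarith

/-- a bad exponent, in terms of logarithms -/
private def RelR (x y δ : ℝ) (H u : ℕ) : Prop :=
  ∃ v a b : ℕ, 1 ≤ a ∧ a ≤ H ∧ 1 ≤ b ∧ b ≤ H ∧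
    |(v : ℝ) * x - u * y - (Real.log a - Real.log b)| ≤ δ

/-- the difference of two bad exponents -/
private def R2R (x y δ : ℝ) (M d : ℕ) (e : ℤ) (A B : ℕ) : Prop :=
  1 ≤ A ∧ A ≤ M ∧ 1 ≤ B ∧ B ≤ M ∧ |(e : ℝ) * x - d * y - (Real.log A - Real.log B)| ≤ δ

private theorem abs_logR {η : ℝ} (h : |η| ≤ 1 / 2) : |Real.log (1 + η)| ≤ 2 * |η| := by
  have h1 := abs_le.1 h
  have hpos : 0 < 1 + η := by linarith [h1.1]
  rw [abs_le]
  constructor
  · have h2 := Real.one_sub_inv_le_log_of_pos hpos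
    have h3 : -(2 * |η|) ≤ 1 - (1 + η)⁻¹ := by
      have h4 : 1 - (1 + η)⁻¹ = η / (1 + η) := by field_simp; ring
      rw [h4, le_div_iff₀ hpos]
      rcases le_or_gt 0 η with h5 | h5
      · rw [abs_of_nonneg h5]; nlinarith
      · rw [abs_of_neg h5]; rw [abs_of_neg h5] at h; nlinarith
    linarith
  · have h2 := Real.log_le_sub_one_of_pos hpos
    have h3 := le_abs_self η
    have h4 := abs_nonneg η
    linarith

private theorem rel_of_badR {t s : ℝ} (ht : 1 < t) (hs : 1 < s) {K X u : ℕ} (hX : 1 ≤ X)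
    (h : Bad t s K X u) :
    RelR (Real.log s) (Real.log t) (2 / X) (2 ^ (24 * K + 4)) u := by
  obtain ⟨v, h1, h2, q, hq1, hq2, p, hp⟩ := h
  have hsv : 0 < s ^ v := by positivity
  have htu : 0 < t ^ u := by positivity
  set r : ℝ := s ^ v / t ^ u with hr
  have hr0 : 0 < r := by positivity
  have hri : t ^ u / s ^ v = r⁻¹ := by rw [hr, inv_div]
  rw [hri] at hp
  have hr2 : r⁻¹ < 2 ^ (12 * K) := by
    rw [inv_lt_comm₀ hr0 (by positivity)]
    calc ((2 : ℝ) ^ (12 * K))⁻¹ = (1 / 2) ^ (12 * K) := by rw [one_div, inv_pow]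
      _ < r := h1
  set α : ℝ := max r r⁻¹ with hα
  have hα1 : 1 ≤ α := by
    rcases le_or_gt 1 r with h3 | h3
    · exact le_trans h3 (le_max_left _ _)
    · exact le_trans (one_le_inv_iff₀.2 ⟨hr0, h3.le⟩) (le_max_right _ _)
  have hα2 : α < 2 ^ (12 * K) := max_lt h2 hr2
  have hα0 : 0 < α := by linarith
  have hXr : (1 : ℝ) ≤ X := by exact_mod_cast hX
  have hX2 : 1 / ((X : ℝ) + 1) ≤ 1 / 2 := by
    apply one_div_le_one_div_of_le <;> linarith
  have hq1r : (1 : ℝ) ≤ q := by exact_mod_cast hq1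
  have hq2r : (q : ℝ) ≤ 2 ^ (12 * K + 3) := by exact_mod_cast hq2
  have hqα : 1 ≤ q * α := by nlinarith
  have hp' := abs_le.1 (le_trans hp hX2)
  have hp1 : 1 ≤ p := by
    have : (0 : ℝ) < p := by linarith [hp'.2]
    exact_mod_cast this
  have hp1r : (1 : ℝ) ≤ p := by exact_mod_cast hp1
  have hp2 : (p : ℝ) ≤ 2 ^ (24 * K + 4) := by
    have h4 : q * α ≤ 2 ^ (12 * K + 3) * 2 ^ (12 * K) := by
      apply mul_le_mul hq2r hα2.le hα0.le (by positivity)
    have h5 : (2 : ℝ) ^ (12 * K + 3) * 2 ^ (12 * K) = 2 ^ (24 * K + 3) := by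
      rw [← pow_add]; ring_nf
    have h6 : (2 : ℝ) ^ (24 * K + 4) = 2 * 2 ^ (24 * K + 3) := by ring
    have h7 : (1 : ℝ) ≤ 2 ^ (24 * K + 3) := one_le_pow₀ (by norm_num)
    rw [h5] at h4
    rw [h6]
    linarith [hp'.1]
  obtain ⟨P, rfl⟩ := Int.eq_ofNat_of_zero_le (by omega : 0 ≤ p)
  have hP1 : 1 ≤ P := by exact_mod_cast hp1
  have hP1r : (1 : ℝ) ≤ P := by exact_mod_cast hP1
  have hP2 : P ≤ 2 ^ (24 * K + 4) := by
    have : ((P : ℤ) : ℝ) = (P : ℝ) := by push_cast; rfl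
    rw [this] at hp2
    exact_mod_cast hp2
  have hcast : (((P : ℕ) : ℤ) : ℝ) = (P : ℝ) := by push_cast; rfl
  rw [hcast] at hp
  -- the logarithm
  have key : |Real.log α - (Real.log P - Real.log q)| ≤ 2 / X := by
    set η : ℝ := (q * α - P) / P with hη
    have hP0 : (0 : ℝ) < P := by linarith
    have hq0 : (0 : ℝ) < q := by linarith
    have h3 : |η| ≤ 1 / ((X : ℝ) + 1) := by
      rw [hη, abs_div, abs_of_pos hP0, div_le_iff₀ hP0]
      have h4 : (0 : ℝ) < 1 / ((X : ℝ) + 1) := by positivity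
      nlinarith
    have h4 : Real.log (1 + η) = Real.log α - (Real.log P - Real.log q) := by
      have : 1 + η = q * α / P := by rw [hη]; field_simp; ring
      rw [this, Real.log_div (by positivity) (by positivity),
        Real.log_mul (by positivity) (by positivity)]
      ring
    rw [← h4]
    have h5 := abs_logR (h3.trans hX2)
    have h6 : 1 / ((X : ℝ) + 1) ≤ 1 / X := one_div_le_one_div_of_le (by linarith) (by linarith)
    have h7 : (2 : ℝ) / X = 2 * (1 / X) := by ring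
    rw [h7]
    linarith
  have hqH : q ≤ 2 ^ (24 * K + 4) :=
    hq2.trans (Nat.pow_le_pow_right (by norm_num) (by omega))
  have hlogr : Real.log r = v * Real.log s - u * Real.log t := by
    rw [hr, Real.log_div (by positivity) (by positivity), Real.log_pow, Real.log_pow]
  rcases le_total r⁻¹ r with h3 | h3
  · have hαr : α = r := max_eq_left h3
    rw [hαr, hlogr] at key
    exact ⟨v, P, q, hP1, hP2, hq1, hqH, key⟩
  · have hαr : α = r⁻¹ := max_eq_right h3
    rw [hαr, Real.log_inv, hlogr] at key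
    refine ⟨v, q, P, hq1, hqH, hP1, hP2, ?_⟩
    rw [← abs_neg] at key
    convert key using 2
    ring

private theorem diffR {x y δ : ℝ} {H u₁ u₂ : ℕ} (hu : u₁ ≤ u₂) (h1 : RelR x y δ H u₁)
    (h2 : RelR x y δ H u₂) : ∃ (e : ℤ) (A B : ℕ), R2R x y (2 * δ) (H * H) (u₂ - u₁) e A B := by
  obtain ⟨v₁, a₁, b₁, ha1, ha1', hb1, hb1', h1⟩ := h1
  obtain ⟨v₂, a₂, b₂, ha2, ha2', hb2, hb2', h2⟩ := h2
  refine ⟨(v₂ : ℤ) - v₁, a₂ * b₁, b₂ * a₁, Nat.mul_pos ha2 hb1, Nat.mul_le_mul ha2' hb1',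
    Nat.mul_pos hb2 ha1, Nat.mul_le_mul hb2' ha1', ?_⟩
  have e1 : (0 : ℝ) < a₁ := by exact_mod_cast ha1
  have e2 : (0 : ℝ) < a₂ := by exact_mod_cast ha2
  have e3 : (0 : ℝ) < b₁ := by exact_mod_cast hb1
  have e4 : (0 : ℝ) < b₂ := by exact_mod_cast hb2
  push_cast [Nat.cast_sub hu]
  rw [Real.log_mul e2.ne' e3.ne', Real.log_mul e4.ne' e1.ne']
  have h1' := abs_le.1 h1
  have h2' := abs_le.1 h2
  rw [abs_le]
  constructor
  · linarith [h1'.1, h1'.2, h2'.1, h2'.2]
  · linarith [h1'.1, h1'.2, h2'.1, h2'.2]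

private theorem log_twoR (K : ℕ) (hK : 1 ≤ K) :
    Real.log ((2 ^ (24 * K + 4) * 2 ^ (24 * K + 4) : ℕ) : ℝ) ≤ 40 * K := by
  push_cast
  rw [← pow_add, Real.log_pow]
  push_cast
  have h1 := Real.log_two_lt_d9
  have hK1 : (1 : ℝ) ≤ K := by exact_mod_cast hK
  nlinarith


private theorem phi_pow {φ : ℕ → ℤ} (hmul : ∀ m n : ℕ, 1 ≤ m → 1 ≤ n → φ (m * n) = φ m + φ n) (h1 : φ 1 = 0) {n : ℕ} (hn : 1 ≤ n)
    (k : ℕ) : φ (n ^ k) = k * φ n := by
  induction k with
  | zero => simp [h1]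
  | succ k ih =>
    rw [pow_succ, hmul _ _ (Nat.one_le_pow _ _ hn) hn, ih]
    push_cast
    ring

/-- an integer multiple of a difference of logarithms -/
private theorem mulzR {φ : ℕ → ℤ} (hmul : ∀ m n : ℕ, 1 ≤ m → 1 ≤ n → φ (m * n) = φ m + φ n) (h1 : φ 1 = 0)
    (e : ℤ) {A B : ℕ} (hA : 1 ≤ A) (hB : 1 ≤ B) (hAB : φ A = φ B) : ∃ A' B' : ℕ, 1 ≤ A' ∧ 1 ≤ B' ∧
    Real.log A' - Real.log B' = e * (Real.log A - Real.log B) ∧
    Real.log A' + Real.log B' = |(e : ℝ)| * (Real.log A + Real.log B) ∧ φ A' = φ B' := by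
  have a1 : (0 : ℝ) < A := by exact_mod_cast hA
  have b1 : (0 : ℝ) < B := by exact_mod_cast hB
  have hc : ((e.natAbs : ℕ) : ℝ) = |(e : ℝ)| := by rw [Nat.cast_natAbs, Int.cast_abs]
  rcases le_or_gt 0 e with h | h
  · refine ⟨A ^ e.natAbs, B ^ e.natAbs, Nat.one_le_pow _ _ hA, Nat.one_le_pow _ _ hB, ?_, ?_, ?_⟩
    · push_cast
      rw [Real.log_pow, Real.log_pow, hc, abs_of_nonneg (by exact_mod_cast h)]
      ring
    · push_cast
      rw [Real.log_pow, Real.log_pow, hc]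
      ring
    · rw [phi_pow hmul h1 hA, phi_pow hmul h1 hB, hAB]
  · refine ⟨B ^ e.natAbs, A ^ e.natAbs, Nat.one_le_pow _ _ hB, Nat.one_le_pow _ _ hA, ?_, ?_, ?_⟩
    · push_cast
      rw [Real.log_pow, Real.log_pow, hc, abs_of_neg (by exact_mod_cast h)]
      ring
    · push_cast
      rw [Real.log_pow, Real.log_pow, hc]
      ring
    · rw [phi_pow hmul h1 hA, phi_pow hmul h1 hB, hAB]

/-- the difference of two bad exponents is small -/
private theorem dist_leR {x y δ T E : ℝ} {r r' a₁ a₂ b₁ b₂ N d A B L c : ℕ} {e : ℤ} {φ : ℕ → ℤ}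
    (hx : 0 < x) (hy : 0 < y) (hr' : 1 ≤ r') (ha1 : 1 ≤ a₁) (ha2 : 1 ≤ a₂) (hb1 : 1 ≤ b₁) (hb2 : 1 ≤ b₂)
    (hyy : (r : ℝ) * y = Real.log a₁ - Real.log a₂) (hxx : (r' : ℝ) * x = Real.log b₁ - Real.log b₂)
    (hmul : ∀ m n : ℕ, 1 ≤ m → 1 ≤ n → φ (m * n) = φ m + φ n) (h1 : φ 1 = 0) (hb : φ b₁ = φ b₂) (ha : φ a₁ ≠ φ a₂)
    (hc : ∀ n L : ℕ, 1 ≤ n → n ≤ 2 ^ L → |φ n| ≤ c * L)
    (hδ : δ ≤ 1) (hd : d ≤ N) (h : R2R x y δ (2 ^ L) d e A B)
    (hE : (N * y + Real.log ((2 ^ L : ℕ) : ℝ) + 1) / x ≤ E)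
    (hT : E * r * (Real.log b₁ + Real.log b₂) + N * r' * (Real.log a₁ + Real.log a₂) +
      2 * (r * r') * Real.log ((2 ^ L : ℕ) : ℝ) ≤ T)
    (hS : r * r' * δ < Real.exp (-T)) : d ≤ 2 * r * c * L := by
  obtain ⟨hA, hAM, hB, hBM, h⟩ := h
  set M : ℕ := 2 ^ L with hM
  have a1 : (0 : ℝ) < A := by exact_mod_cast hA
  have a2 : (0 : ℝ) < B := by exact_mod_cast hB
  have p1 : (0 : ℝ) < a₁ := by exact_mod_cast ha1
  have p2 : (0 : ℝ) < a₂ := by exact_mod_cast ha2
  have lM : 0 ≤ Real.log M := Real.log_natCast_nonneg M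
  have hlog : ∀ n : ℕ, 1 ≤ n → n ≤ M → 0 ≤ Real.log n ∧ Real.log n ≤ Real.log M := fun n hn hnM =>
    ⟨Real.log_natCast_nonneg n, Real.log_le_log (by exact_mod_cast hn) (by exact_mod_cast hnM)⟩
  have lA := hlog _ hA hAM
  have lB := hlog _ hB hBM
  have la1 : 0 ≤ Real.log a₁ := Real.log_natCast_nonneg _
  have la2 : 0 ≤ Real.log a₂ := Real.log_natCast_nonneg _
  have lb1 : 0 ≤ Real.log b₁ := Real.log_natCast_nonneg _
  have lb2 : 0 ≤ Real.log b₂ := Real.log_natCast_nonneg _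
  have hdr : (d : ℝ) ≤ N := by exact_mod_cast hd
  have d0 : (0 : ℝ) ≤ d := Nat.cast_nonneg _
  have N0 : (0 : ℝ) ≤ N := Nat.cast_nonneg _
  have r0 : (0 : ℝ) ≤ r := Nat.cast_nonneg _
  have r'0 : (0 : ℝ) ≤ r' := Nat.cast_nonneg _
  have he : |(e : ℝ)| ≤ E := by
    refine le_trans ?_ hE
    rw [le_div_iff₀ hx]
    have h' := abs_le.1 h
    have h2 : (d : ℝ) * y ≤ N * y := mul_le_mul_of_nonneg_right hdr hy.le
    have h3 : 0 ≤ (d : ℝ) * y := by positivity
    have habs : |(e : ℝ)| * x = |(e : ℝ) * x| := by rw [abs_mul, abs_of_pos hx]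
    rw [habs, abs_le]
    constructor
    · linarith [h'.1]
    · linarith [h'.2]
  obtain ⟨P₁, Q₁, hP₁, hQ₁, r1, r2, r3⟩ := mulzR hmul h1 (e * r) hb1 hb2 hb
  have q1 : (0 : ℝ) < P₁ := by exact_mod_cast hP₁
  have q2 : (0 : ℝ) < Q₁ := by exact_mod_cast hQ₁
  have lP1 : 0 ≤ Real.log P₁ := Real.log_natCast_nonneg _
  have lQ1 : 0 ≤ Real.log Q₁ := Real.log_natCast_nonneg _
  set P : ℕ := P₁ * (a₂ ^ (d * r') * B ^ (r * r')) with hP
  set Q : ℕ := Q₁ * (a₁ ^ (d * r') * A ^ (r * r')) with hQ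
  have hP0 : 1 ≤ P := Nat.mul_pos hP₁ (Nat.mul_pos (pow_pos ha2 _) (pow_pos hB _))
  have hQ0 : 1 ≤ Q := Nat.mul_pos hQ₁ (Nat.mul_pos (pow_pos ha1 _) (pow_pos hA _))
  have lP : Real.log P = Real.log P₁ + (d * r' * Real.log a₂ + r * r' * Real.log B) := by
    rw [hP]; push_cast
    rw [Real.log_mul (by positivity) (by positivity), Real.log_mul (by positivity) (by positivity), Real.log_pow, Real.log_pow]
    push_cast
    ring
  have lQ : Real.log Q = Real.log Q₁ + (d * r' * Real.log a₁ + r * r' * Real.log A) := by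
    rw [hQ]; push_cast
    rw [Real.log_mul (by positivity) (by positivity), Real.log_mul (by positivity) (by positivity), Real.log_pow, Real.log_pow]
    push_cast
    ring
  have main : |Real.log P - Real.log Q| ≤ r * r' * δ := by
    have e0 : Real.log P - Real.log Q = r * r' * ((e : ℝ) * x - d * y - (Real.log A - Real.log B)) := by
      push_cast at r1
      rw [lP, lQ]
      linear_combination r1 - (e : ℝ) * r * hxx + (d : ℝ) * r' * hyy
    rw [e0, abs_mul, abs_of_nonneg (by positivity : (0 : ℝ) ≤ r * r')]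
    exact mul_le_mul_of_nonneg_left h (by positivity)
  have hsum : Real.log P + Real.log Q ≤ T := by
    refine le_trans ?_ hT
    rw [lP, lQ]
    push_cast at r2
    rw [abs_mul, abs_of_nonneg r0] at r2
    have s1 : |(e : ℝ)| * r * (Real.log b₁ + Real.log b₂) ≤ E * r * (Real.log b₁ + Real.log b₂) :=
      mul_le_mul_of_nonneg_right (mul_le_mul_of_nonneg_right he r0) (by linarith)
    have s2 : (d : ℝ) * r' * (Real.log a₁ + Real.log a₂) ≤ N * r' * (Real.log a₁ + Real.log a₂) :=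
      mul_le_mul_of_nonneg_right (mul_le_mul_of_nonneg_right hdr r'0) (by linarith)
    have s3 : (r : ℝ) * r' * (Real.log A + Real.log B) ≤ r * r' * (2 * Real.log M) :=
      mul_le_mul_of_nonneg_left (by linarith [lA.2, lB.2]) (by positivity)
    linarith
  have lP0 : 0 ≤ Real.log P := Real.log_natCast_nonneg P
  have lQ0 : 0 ≤ Real.log Q := Real.log_natCast_nonneg Q
  have heq : P = Q := by
    by_contra hne
    have step : ∀ P Q : ℕ, 1 ≤ P → P < Q → Real.log Q ≤ T →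
        |Real.log P - Real.log Q| ≤ r * r' * δ → False := by
      intro P Q hP1 hPQ hQ2 h
      have hP0 : (0 : ℝ) < P := by exact_mod_cast hP1
      have hQ0' : 0 < Q := by omega
      have hQ0 : (0 : ℝ) < Q := by exact_mod_cast hQ0'
      have h3 := Real.one_sub_inv_le_log_of_pos (div_pos hQ0 hP0)
      rw [Real.log_div hQ0.ne' hP0.ne', inv_div] at h3
      have h4 : 1 / (Q : ℝ) ≤ 1 - P / Q := by
        rw [div_le_iff₀ hQ0, sub_mul, div_mul_cancel₀ _ hQ0.ne', one_mul]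
        have : (P : ℝ) + 1 ≤ Q := by exact_mod_cast hPQ
        linarith
      have h5 : Real.exp (-T) ≤ 1 / Q := by
        rw [Real.exp_neg, one_div]
        apply inv_anti₀ hQ0
        calc (Q : ℝ) = Real.exp (Real.log Q) := (Real.exp_log hQ0).symm
          _ ≤ _ := Real.exp_le_exp.2 hQ2
      have h6 := (abs_le.1 h).1
      linarith
    rcases lt_or_gt_of_ne hne with h3 | h3
    · exact step P Q hP0 h3 (by linarith) main
    · exact step Q P hQ0 h3 (by linarith) (by rw [abs_sub_comm]; exact main)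
  -- the valuations
  have f1 : φ P = φ P₁ + ((d * r' : ℕ) * φ a₂ + (r * r' : ℕ) * φ B) := by
    rw [hP, hmul _ _ hP₁ (Nat.mul_pos (pow_pos ha2 _) (pow_pos hB _)), hmul _ _ (Nat.one_le_pow _ _ ha2) (Nat.one_le_pow _ _ hB),
      phi_pow hmul h1 ha2, phi_pow hmul h1 hB]
  have f2 : φ Q = φ Q₁ + ((d * r' : ℕ) * φ a₁ + (r * r' : ℕ) * φ A) := by
    rw [hQ, hmul _ _ hQ₁ (Nat.mul_pos (pow_pos ha1 _) (pow_pos hA _)), hmul _ _ (Nat.one_le_pow _ _ ha1) (Nat.one_le_pow _ _ hA),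
      phi_pow hmul h1 ha1, phi_pow hmul h1 hA]
  have f3 : (r' : ℤ) * (d * (φ a₁ - φ a₂)) = r' * (r * (φ B - φ A)) := by
    rw [heq, f2, r3] at f1
    push_cast at f1
    linear_combination f1
  have f4 : (d : ℤ) * (φ a₁ - φ a₂) = r * (φ B - φ A) :=
    mul_left_cancel₀ (by exact_mod_cast (by omega : r' ≠ 0)) f3
  have f5 : (1 : ℤ) ≤ |φ a₁ - φ a₂| := Int.one_le_abs (sub_ne_zero.2 ha)
  have f6 : |(d : ℤ) * (φ a₁ - φ a₂)| ≤ r * (2 * (c * L)) := by
    rw [f4, abs_mul, abs_of_nonneg (Int.natCast_nonneg r)]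
    apply mul_le_mul_of_nonneg_left _ (Int.natCast_nonneg r)
    have g1 := hc B L hB hBM
    have g2 := hc A L hA hAM
    have g3 := abs_sub (φ B) (φ A)
    linarith
  rw [abs_mul, abs_of_nonneg (Int.natCast_nonneg d)] at f6
  have f7 : (d : ℤ) ≤ 2 * r * c * L := by
    calc (d : ℤ) = d * 1 := (mul_one _).symm
      _ ≤ d * |φ a₁ - φ a₂| := mul_le_mul_of_nonneg_left f5 (Int.natCast_nonneg d)
      _ ≤ _ := f6
      _ = _ := by ring
  exact_mod_cast f7

private theorem num_denR {t : ℝ} (ht : 1 < t) (h : RatPow t) : ∃ r a₁ a₂ : ℕ, 1 ≤ r ∧ 1 ≤ a₁ ∧ 1 ≤ a₂ ∧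
    (r : ℝ) * Real.log t = Real.log a₁ - Real.log a₂ := by
  obtain ⟨r, hr, ρ, hρ⟩ := h
  have hp : (0 : ℝ) < (ρ : ℝ) := by rw [← hρ]; positivity
  have hp' : 0 < ρ := by exact_mod_cast hp
  have hn : 0 < ρ.num := Rat.num_pos.2 hp'
  refine ⟨r, ρ.num.natAbs, ρ.den, hr, by omega, ρ.den_pos, ?_⟩
  have h1 : ((ρ.num.natAbs : ℕ) : ℝ) = (ρ.num : ℝ) := by
    rw [Nat.cast_natAbs, Int.cast_abs, abs_of_pos (by exact_mod_cast hn)]
  have h2 : (0 : ℝ) < (ρ.num : ℝ) := by exact_mod_cast hn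
  have h3 : (0 : ℝ) < (ρ.den : ℝ) := by exact_mod_cast ρ.den_pos
  rw [h1, ← Real.log_div h2.ne' h3.ne', ← Real.log_pow, hρ]
  congr 1
  exact_mod_cast (Rat.num_div_den ρ).symm

open Classical in
/-- BAD, both `t` and `s` have a rational power -/
theorem bad_count_rat {t s : ℝ} {κ : ℕ} (hκ : 1 ≤ κ) (ht : 1 < t) (hs : 1 < s) (ht2 : RatPow t) (hs2 : RatPow s)
    (hirr : Irrational (Real.log t / Real.log s)) :
    ∃ c' : ℕ, 1 ≤ c' ∧ ∀ C : ℕ, 1 ≤ C → ∃ D : ℝ, 0 < D ∧ ∀ᶠ K : ℕ in atTop, ∀ X : ℕ,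
      Real.exp (D * (K : ℝ) ^ (2 * κ)) ≤ X → ∀ u₀ : ℕ,
      (((Finset.Ico u₀ (u₀ + C * K)).filter fun u => Bad t s K X u).card : ℝ) ≤ c' * (K : ℝ) + 1 := by
  have hx : 0 < Real.log s := Real.log_pos hs
  have hy : 0 < Real.log t := Real.log_pos ht
  obtain ⟨r, a₁, a₂, hr, ha1, ha2, hyy⟩ := num_denR ht ht2
  obtain ⟨r', b₁, b₂, hr', hb1, hb2, hxx⟩ := num_denR hs hs2
  set x := Real.log s with hxd
  set y := Real.log t with hyd
  have r0 : (0 : ℝ) < r := by exact_mod_cast hr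
  have r'0 : (0 : ℝ) < r' := by exact_mod_cast hr'
  obtain ⟨φ, c, hmul, h1, hb, ha, hc⟩ := exists_phi (b₁ := b₁) (b₂ := b₂) ha1 ha2 (by
    rw [← hyy, ← hxx]
    rintro ⟨q, hq⟩
    apply hirr
    refine ⟨q * r' / r, ?_⟩
    push_cast
    rw [hq]
    field_simp)
  refine ⟨2 * r * c * 56 + 1, by omega, fun C hC => ?_⟩
  have hCr : (1 : ℝ) ≤ C := by exact_mod_cast hC
  set E₁ : ℝ := (C * y + 41) / x with hE₁
  have hE₁0 : 0 < E₁ := by positivity
  have la1 : 0 ≤ Real.log a₁ := Real.log_natCast_nonneg _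
  have la2 : 0 ≤ Real.log a₂ := Real.log_natCast_nonneg _
  have lb1 : 0 ≤ Real.log b₁ := Real.log_natCast_nonneg _
  have lb2 : 0 ≤ Real.log b₂ := Real.log_natCast_nonneg _
  set C₃ : ℝ := E₁ * r * (Real.log b₁ + Real.log b₂) + C * r' * (Real.log a₁ + Real.log a₂) + 80 * (r * r') with hC₃
  have hC₃0 : 0 < C₃ := by positivity
  refine ⟨C₃ + 1, by positivity, ?_⟩
  have ev1 : ∀ᶠ K : ℕ in atTop, 4 * ((r : ℝ) * r') < Real.exp K := by
    exact (Real.tendsto_exp_atTop.comp tendsto_natCast_atTop_atTop).eventually_gt_atTop _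
  filter_upwards [ev1, eventually_ge_atTop 4] with K h2 hK X hX u₀
  have hK1 : (1 : ℝ) ≤ K := by exact_mod_cast (by omega : 1 ≤ K)
  have hK4 : (4 : ℝ) ≤ K := by exact_mod_cast hK
  set Z : ℝ := (K : ℝ) ^ (2 * κ) with hZ
  have hZ2 : (K : ℝ) ^ 2 ≤ Z := pow_le_pow_right₀ hK1 (by omega)
  have hZK : (K : ℝ) ≤ Z := by nlinarith
  have hXexp : Real.exp ((C₃ + 1) * K) ≤ X :=
    (Real.exp_le_exp.2 (mul_le_mul_of_nonneg_left hZK (by positivity))).trans hX
  have hX0 : (0 : ℝ) < X := lt_of_lt_of_le (Real.exp_pos _) hXexp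
  have hX1 : 1 ≤ X := by exact_mod_cast hX0
  have hX4 : (4 : ℝ) ≤ X := by
    have h3 := Real.add_one_le_exp ((C₃ + 1) * (K : ℝ))
    nlinarith
  set S := (Finset.Ico u₀ (u₀ + C * K)).filter fun u => Bad t s K X u with hS
  rcases Nat.lt_or_ge S.card 2 with hcard | hcard
  · have h3 : (S.card : ℝ) ≤ 1 := by exact_mod_cast (by omega : S.card ≤ 1)
    have h4 : (0 : ℝ) ≤ ((2 * r * c * 56 + 1 : ℕ) : ℝ) * K := by positivity
    linarith
  have hne : S.Nonempty := Finset.card_pos.1 (by omega)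
  set a := S.min' hne with had
  set b := S.max' hne with hbd
  have haS : a ∈ S := Finset.min'_mem _ _
  have hbS : b ∈ S := Finset.max'_mem _ _
  have hle : ∀ u ∈ S, a ≤ u := fun u hu => Finset.min'_le _ _ hu
  have hge : ∀ u ∈ S, u ≤ b := fun u hu => Finset.le_max' _ _ hu
  have hab : a ≤ b := hle b hbS
  have hbN : b - a ≤ C * K := by
    have h3 := (Finset.mem_Ico.1 (Finset.mem_filter.1 haS).1)
    have h4 := (Finset.mem_Ico.1 (Finset.mem_filter.1 hbS).1)
    omega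
  have hrel : ∀ u ∈ S, RelR x y (2 / X) (2 ^ (24 * K + 4)) u := fun u hu =>
    rel_of_badR ht hs hX1 (Finset.mem_filter.1 hu).2
  obtain ⟨e, A, B, hR⟩ := diffR hab (hrel a haS) (hrel b hbS)
  have hδ : (2 : ℝ) * (2 / X) = 4 / X := by ring
  rw [hδ] at hR
  have lM := log_twoR K (by omega)
  have hM : (2 : ℕ) ^ (24 * K + 4) * 2 ^ (24 * K + 4) = 2 ^ (48 * K + 8) := by
    rw [← pow_add]; congr 1; ring
  rw [hM] at hR lM
  have hNc : ((C * K : ℕ) : ℝ) = C * K := by push_cast; ring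
  have hd := dist_leR (T := C₃ * K) (E := K * E₁) (N := C * K) hx hy hr' ha1 ha2 hb1 hb2 hyy hxx hmul h1 hb ha hc
    (by rw [div_le_one hX0]; exact hX4) hbN hR
    (by
      rw [hNc, hE₁, ← mul_div_assoc]
      apply div_le_div_of_nonneg_right _ hx.le
      nlinarith)
    (by
      rw [hNc]
      have h7 := mul_le_mul_of_nonneg_left lM (by positivity : (0 : ℝ) ≤ 2 * (r * r'))
      calc _ ≤ K * E₁ * r * (Real.log b₁ + Real.log b₂) + C * K * r' * (Real.log a₁ + Real.log a₂) +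
            2 * (r * r') * (40 * K) := by linarith
        _ = C₃ * K := by rw [hC₃]; ring)
    (by
      rw [mul_div_assoc', div_lt_iff₀ hX0]
      calc (r : ℝ) * r' * 4 < Real.exp K := by linarith
        _ = Real.exp (-(C₃ * K)) * Real.exp ((C₃ + 1) * K) := by
            rw [← Real.exp_add]; congr 1; ring
        _ ≤ _ := mul_le_mul_of_nonneg_left hXexp (Real.exp_pos _).le)
  have h3 : S.card ≤ b - a + 1 := by
    have h4 : S ⊆ Finset.Icc a b := fun u hu => Finset.mem_Icc.2 ⟨hle u hu, hge u hu⟩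
    have h5 := Finset.card_le_card h4
    rw [Nat.card_Icc] at h5
    omega
  have h4 : 2 * r * c * (48 * K + 8) ≤ 2 * r * c * (56 * K) := Nat.mul_le_mul_left _ (by omega)
  have h5 : S.card ≤ (2 * r * c * 56 + 1) * K + 1 := by nlinarith
  exact_mod_cast h5

end Pool.Agent.Helper77.LD4
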